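import Pool.Agent.Helper68.DS.Goals2

set_option autoImplicit false

/-!
# MP_52cd29_ag Q1: packet MINGEN (very general lines)
-/

namespace Pool.Agent.Helper64.DS

open MvPolynomial Pool.Agent.Helper68.DS

/-! ### Polynomial curves -/

theorem finite_zeros {f : ℂ → ℂ} (hf : IsPolyMap f) (h0 : f 0 ≠ 0) : {t : ℂ | f t = 0}.Finite := by
  obtain ⟨N, c, hc⟩ := hf
  let Q : Polynomial ℂ := ∑ n ∈ Finset.range N, Polynomial.C (c n) * Polynomial.X ^ n
  have hQ : ∀ t, Q.eval t = f t := by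
    intro t
    rw [hc t, Polynomial.eval_finsetSum]
    refine Finset.sum_congr rfl fun n _ => ?_
    rw [Polynomial.eval_mul, Polynomial.eval_C, Polynomial.eval_pow, Polynomial.eval_X,
      smul_eq_mul, mul_comm]
  have hne : Q ≠ 0 := by
    rintro h
    apply h0
    rw [← hQ 0, h, Polynomial.eval_zero]
  refine (Q.roots.toFinset.finite_toSet).subset ?_
  intro t ht
  simp only [Finset.mem_coe, Multiset.mem_toFinset]
  rw [Polynomial.mem_roots hne, Polynomial.IsRoot.def, hQ]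
  exact ht

theorem pm_coord (h1 : PM_stmt) {k : ℕ} (p q : Fin k → Fin 3 → ℂ) (i : Fin k) (a : Fin 3) :
    IsPolyMap fun t : ℂ => (p + t • q) i a := by
  have h := h1.line ℂ (p i a) (q i a)
  simpa only [Pi.add_apply, Pi.smul_apply] using h

theorem pm_cr (h1 : PM_stmt) {k : ℕ} (p q : Fin k → Fin 3 → ℂ) (i j : Fin k) (a : Fin 3) :
    IsPolyMap fun t : ℂ => cr ((p + t • q) i) ((p + t • q) j) a := by
  have key : ∀ b c : Fin 3, IsPolyMap fun t : ℂ =>
      (p + t • q) i b * (p + t • q) j c - (p + t • q) i c * (p + t • q) j b := fun b c =>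
    h1.sub _ _ _ (h1.mul _ _ _ (pm_coord h1 p q i b) (pm_coord h1 p q j c))
      (h1.mul _ _ _ (pm_coord h1 p q i c) (pm_coord h1 p q j b))
  fin_cases a
  · exact key 1 2
  · exact key 2 0
  · exact key 0 1

theorem pm_dot (h1 : PM_stmt) {f g : ℂ → Fin 3 → ℂ} (hf : ∀ a, IsPolyMap fun t => f t a)
    (hg : ∀ a, IsPolyMap fun t => g t a) : IsPolyMap fun t => f t ⬝ᵥ g t := by
  unfold dotProduct
  exact h1.sum _ _ _ _ fun a _ => h1.mul _ _ _ (hf a) (hg a)

theorem pm_pow (h1 : PM_stmt) {A : Type} [CommRing A] [Algebra ℂ A] {f : ℂ → A}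
    (hf : IsPolyMap f) (n : ℕ) : IsPolyMap fun t => f t ^ n := by
  have h := h1.prod ℕ (Finset.range n) A (fun _ => f) fun _ _ => hf
  simpa only [Finset.prod_const, Finset.card_range] using h

theorem pm_eval (h1 : PM_stmt) {n : ℕ} {c : ℂ → Fin n → ℂ} (hc : ∀ a, IsPolyMap fun t => c t a)
    (h : MvPolynomial (Fin n) ℂ) : IsPolyMap fun t => eval (c t) h := by
  have : (fun t => eval (c t) h) = fun t => ∑ d ∈ h.support, h.coeff d * ∏ i, c t i ^ d i := by
    funext t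
    rw [eval_eq']
  rw [this]
  refine h1.sum _ _ _ _ fun d _ => h1.mul _ _ _ (h1.const _ _) ?_
  exact h1.prod _ _ _ _ fun i _ => pm_pow h1 (hc i) _

theorem pm_lf (h1 : PM_stmt) {k : ℕ} (p q : Fin k → Fin 3 → ℂ) (i : Fin k) :
    IsPolyMap fun t : ℂ => lf ((p + t • q) i) := by
  unfold lf
  refine h1.sum _ _ _ _ fun j _ => h1.mul _ _ _ ?_ (h1.const _ _)
  have h := h1.lin ℂ (MvPolynomial (Fin 3) ℂ) (Algebra.linearMap ℂ _) _ (pm_coord h1 p q i j)
  simpa only [Algebra.linearMap_apply, algebraMap_eq] using h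

theorem pm_Theta (h1 : PM_stmt) {k : ℕ} (p q ξ : Fin k → Fin 3 → ℂ) :
    IsPolyMap fun t : ℂ => Theta (p + t • q) ξ := by
  have : (fun t : ℂ => Theta (p + t • q) ξ) =
      fun t => ∑ i, lf (ξ i) * ∏ l ∈ Finset.univ.erase i, lf ((p + t • q) l) := rfl
  rw [this]
  exact h1.sum _ _ _ _ fun i _ => h1.mul _ _ _ (h1.const _ _)
    (h1.prod _ _ _ _ fun l _ => pm_lf h1 p q l)

/-! ### General position -/

theorem gen_open (h1 : PM_stmt) (k : ℕ) :
    LineOpen {lam : Fin k → Fin 3 → ℂ | Gen lam} := by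
  intro p hp q
  obtain ⟨hp1, hp2⟩ := hp
  have hA : ∀ i j : Fin k, {t : ℂ | i ≠ j ∧ cr ((p + t • q) i) ((p + t • q) j) = 0}.Finite := by
    intro i j
    by_cases hij : i = j
    · refine Set.Finite.subset Set.finite_empty ?_
      rintro t ⟨h, -⟩
      exact h hij
    · obtain ⟨a, ha⟩ := Function.ne_iff.mp (hp1 i j hij)
      have hf := finite_zeros (pm_cr h1 p q i j a) (by simpa using ha)
      refine hf.subset ?_
      rintro t ⟨-, h⟩
      exact congrFun h a
  have hB : ∀ i j l : Fin k, {t : ℂ | i ≠ j ∧ j ≠ l ∧ i ≠ l ∧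
      (p + t • q) i ⬝ᵥ cr ((p + t • q) j) ((p + t • q) l) = 0}.Finite := by
    intro i j l
    by_cases h : i ≠ j ∧ j ≠ l ∧ i ≠ l
    · obtain ⟨h₁, h₂, h₃⟩ := h
      have hf := finite_zeros (pm_dot h1 (pm_coord h1 p q i) (pm_cr h1 p q j l))
        (by simpa using hp2 i j l h₁ h₂ h₃)
      refine hf.subset ?_
      rintro t ⟨-, -, -, h⟩
      exact h
    · refine Set.Finite.subset Set.finite_empty ?_
      rintro t ⟨h₁, h₂, h₃, -⟩
      exact h ⟨h₁, h₂, h₃⟩
  refine ((Set.finite_iUnion fun i : Fin k => Set.finite_iUnion fun j : Fin k => hA i j).union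
    (Set.finite_iUnion fun i : Fin k => Set.finite_iUnion fun j : Fin k =>
      Set.finite_iUnion fun l : Fin k => hB i j l)).subset ?_
  intro t ht
  simp only [Set.mem_ofPred_eq, Gen] at ht
  by_contra hcon
  apply ht
  simp only [Set.mem_union, Set.mem_iUnion, Set.mem_ofPred_eq, not_or, not_exists, not_and] at hcon
  exact ⟨fun i j hij => hcon.1 i j hij, fun i j l h₁ h₂ h₃ => hcon.2 i j l h₁ h₂ h₃⟩

theorem gen_nonempty (k : ℕ) : {lam : Fin k → Fin 3 → ℂ | Gen lam}.Nonempty := by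
  refine ⟨fun i => ![1, (i : ℕ), ((i : ℕ) : ℂ) ^ 2], ?_, ?_⟩
  · intro i j hij h
    have h' := congrFun h 2
    simp only [cr, Matrix.cons_val, Pi.zero_apply] at h'
    have h2 : ((j : ℕ) : ℂ) = ((i : ℕ) : ℂ) := by linear_combination h'
    exact hij (Fin.ext (by exact_mod_cast h2.symm))
  · intro i j l h₁ h₂ h₃ h
    have hne : ∀ a b : Fin k, a ≠ b → ((a : ℕ) : ℂ) - ((b : ℕ) : ℂ) ≠ 0 := by
      intro a b hab h0
      have h2 : ((a : ℕ) : ℂ) = ((b : ℕ) : ℂ) := by linear_combination h0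
      exact hab (Fin.ext (by exact_mod_cast h2))
    simp only [cr, dotProduct, Fin.sum_univ_three, Matrix.cons_val] at h
    have h5 : (((j : ℕ) : ℂ) - ((i : ℕ) : ℂ)) * ((((l : ℕ) : ℂ) - ((i : ℕ) : ℂ)) *
        (((l : ℕ) : ℂ) - ((j : ℕ) : ℂ))) = 0 := by
      linear_combination h
    exact mul_ne_zero (hne j i h₁.symm) (mul_ne_zero (hne l i h₃.symm) (hne l j h₂.symm)) h5

/-! ### The kernels -/

theorem aeval_eval {n : ℕ} (c : Fin n → ℂ) (h : MvPolynomial (Fin n) ℂ) :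
    (aeval c) h = eval c h := by
  rw [aeval_eq_eval]

theorem KH_eq {k : ℕ} (lam : Fin k → Fin 3 → ℂ) (H : Submodule ℂ (MvPolynomial (Fin 3) ℂ)) :
    LinearMap.ker (H.mkQ ∘ₗ Theta lam) = KH lam H := by
  rw [KH, LinearMap.ker_comp, Submodule.ker_mkQ]

open Classical in
/-- The evaluations at the nodes outside `A`. -/
noncomputable def TH {k : ℕ} (H : Submodule ℂ (MvPolynomial (Fin 3) ℂ)) (A : Finset (Edge k))
    (lam : Fin k → Fin 3 → ℂ) : H →ₗ[ℂ] (Fin k × Fin k → ℂ) :=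
  LinearMap.pi fun ij =>
    if h : ∃ hij : ij.1 ≠ ij.2, ed ij.1 ij.2 hij ∉ A then
      (aeval (cr (lam ij.1) (lam ij.2))).toLinearMap ∘ₗ H.subtype
    else 0

open Classical in
/-- The conditions of `ZV`. -/
noncomputable def TZ {k : ℕ} (A : Finset (Edge k)) (lam : Fin k → Fin 3 → ℂ) :
    (Fin k → Fin 3 → ℂ) →ₗ[ℂ] (Fin k × Fin k → ℂ) where
  toFun ζ := fun ij => if h : ∃ hij : ij.1 ≠ ij.2, ed ij.1 ij.2 hij ∉ A then
      (ζ ij.1 - ζ ij.2) ⬝ᵥ cr (lam ij.1) (lam ij.2) else 0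
  map_add' ζ η := by
    funext ij
    simp only [Pi.add_apply]
    split_ifs
    · simp only [sub_dotProduct, add_dotProduct]; ring
    · simp
  map_smul' c ζ := by
    funext ij
    simp only [Pi.smul_apply, RingHom.id_apply, smul_eq_mul]
    split_ifs
    · simp only [sub_dotProduct, smul_dotProduct, smul_eq_mul]; ring
    · simp

theorem mem_HV {k : ℕ} {lam : Fin k → Fin 3 → ℂ} {H : Submodule ℂ (MvPolynomial (Fin 3) ℂ)}
    {A : Finset (Edge k)} {h : MvPolynomial (Fin 3) ℂ} :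
    h ∈ HV lam H A ↔ h ∈ H ∧ ∀ (i j : Fin k) (hij : i ≠ j), ed i j hij ∉ A →
      eval (cr (lam i) (lam j)) h = 0 := Iff.rfl

theorem mem_ZV {k : ℕ} {lam : Fin k → Fin 3 → ℂ}
    {A : Finset (Edge k)} {ζ : Fin k → Fin 3 → ℂ} :
    ζ ∈ ZV lam A ↔ ∀ (i j : Fin k) (hij : i ≠ j), ed i j hij ∉ A →
      (ζ i - ζ j) ⬝ᵥ cr (lam i) (lam j) = 0 := Iff.rfl

theorem ker_TH {k : ℕ} (H : Submodule ℂ (MvPolynomial (Fin 3) ℂ)) (A : Finset (Edge k))
    (lam : Fin k → Fin 3 → ℂ) :
    LinearMap.ker (TH H A lam) = (HV lam H A).comap H.subtype := by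
  ext h
  rw [LinearMap.mem_ker, Submodule.mem_comap, mem_HV]
  constructor
  · intro hh
    refine ⟨h.2, fun i j hij hA => ?_⟩
    have h2 := congrFun hh (i, j)
    have hex : ∃ hij : (i, j).1 ≠ (i, j).2, ed (i, j).1 (i, j).2 hij ∉ A := ⟨hij, hA⟩
    rw [TH, LinearMap.pi_apply, dif_pos hex] at h2
    have h3 : (aeval (cr (lam i) (lam j))) (h : MvPolynomial (Fin 3) ℂ) = 0 := h2
    rwa [aeval_eval] at h3
  · rintro ⟨-, hh⟩
    funext ij
    rw [TH, LinearMap.pi_apply]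
    split_ifs with hex
    · obtain ⟨hij, hA⟩ := hex
      change (aeval (cr (lam ij.1) (lam ij.2))) (h : MvPolynomial (Fin 3) ℂ) = 0
      rw [aeval_eval]
      exact hh ij.1 ij.2 hij hA
    · rfl

theorem ker_TZ {k : ℕ} (A : Finset (Edge k)) (lam : Fin k → Fin 3 → ℂ) :
    LinearMap.ker (TZ A lam) = ZV lam A := by
  ext ζ
  rw [LinearMap.mem_ker, mem_ZV]
  constructor
  · intro hh i j hij hA
    have h2 := congrFun hh (i, j)
    have hex : ∃ hij : (i, j).1 ≠ (i, j).2, ed (i, j).1 (i, j).2 hij ∉ A := ⟨hij, hA⟩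
    simp only [TZ, LinearMap.coe_mk, AddHom.coe_mk] at h2
    rw [dif_pos hex] at h2
    exact h2
  · intro hh
    funext ij
    simp only [TZ, LinearMap.coe_mk, AddHom.coe_mk]
    split_ifs with hex
    · obtain ⟨hij, hA⟩ := hex
      exact hh ij.1 ij.2 hij hA
    · rfl

theorem finrank_ker_TH {k : ℕ} (H : Submodule ℂ (MvPolynomial (Fin 3) ℂ)) (A : Finset (Edge k))
    (lam : Fin k → Fin 3 → ℂ) :
    Module.finrank ℂ ↥(LinearMap.ker (TH H A lam)) = Module.finrank ℂ ↥(HV lam H A) := by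
  rw [ker_TH]
  have hle : HV lam H A ≤ H := fun h hh => (mem_HV.mp hh).1
  exact (Submodule.comapSubtypeEquivOfLe hle).finrank_eq

theorem finrank_ker_TZ {k : ℕ} (A : Finset (Edge k)) (lam : Fin k → Fin 3 → ℂ) :
    Module.finrank ℂ ↥(LinearMap.ker (TZ A lam)) = Module.finrank ℂ ↥(ZV lam A) := by
  rw [ker_TZ]

theorem finrank_KH {k : ℕ} (lam : Fin k → Fin 3 → ℂ) (H : Submodule ℂ (MvPolynomial (Fin 3) ℂ)) :
    Module.finrank ℂ ↥(LinearMap.ker (H.mkQ ∘ₗ Theta lam)) = Module.finrank ℂ ↥(KH lam H) := by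
  rw [KH_eq]


/-! ### Permutations -/

theorem edPerm_symm_ed {k : ℕ} (σ : Equiv.Perm (Fin k)) (i j : Fin k) (h : i ≠ j) :
    (edPerm σ).symm (ed i j h) = ed (σ.symm i) (σ.symm j) (fun h' => h (σ.symm.injective h')) := by
  rw [Equiv.symm_apply_eq, edPerm_ed]
  simp only [Equiv.apply_symm_apply]

theorem HV_perm {k : ℕ} (lam : Fin k → Fin 3 → ℂ) (H : Submodule ℂ (MvPolynomial (Fin 3) ℂ))
    (A : Finset (Edge k)) (σ : Equiv.Perm (Fin k)) :
    HV (fun i => lam (σ i)) H A = HV lam H (A.map (edPerm σ).toEmbedding) := by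
  ext h
  rw [mem_HV, mem_HV]
  refine and_congr_right fun _ => ⟨fun hh i j hij hA => ?_, fun hh i j hij hA => ?_⟩
  · rw [Finset.mem_map_equiv, edPerm_symm_ed] at hA
    have := hh (σ.symm i) (σ.symm j) _ hA
    simpa only [Equiv.apply_symm_apply] using this
  · refine hh (σ i) (σ j) (fun h' => hij (σ.injective h')) ?_
    rw [Finset.mem_map_equiv, edPerm_symm_ed]
    simpa only [Equiv.symm_apply_apply] using hA

theorem finrank_HV_perm {k : ℕ} (lam : Fin k → Fin 3 → ℂ)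
    (H : Submodule ℂ (MvPolynomial (Fin 3) ℂ)) (σ : Equiv.Perm (Fin k)) (A : Finset (Edge k)) :
    Module.finrank ℂ ↥(HV (fun i => lam (σ i)) H A) =
      Module.finrank ℂ ↥(HV lam H (A.map (edPerm σ).toEmbedding)) := by
  rw [HV_perm]

theorem ZV_perm {k : ℕ} (lam : Fin k → Fin 3 → ℂ)
    (A : Finset (Edge k)) (σ : Equiv.Perm (Fin k)) (ζ : Fin k → Fin 3 → ℂ) :
    (fun i => ζ (σ i)) ∈ ZV (fun i => lam (σ i)) A ↔ ζ ∈ ZV lam (A.map (edPerm σ).toEmbedding) := by
  rw [mem_ZV, mem_ZV]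
  refine ⟨fun hh i j hij hA => ?_, fun hh i j hij hA => ?_⟩
  · rw [Finset.mem_map_equiv, edPerm_symm_ed] at hA
    have := hh (σ.symm i) (σ.symm j) _ hA
    simpa only [Equiv.apply_symm_apply] using this
  · refine hh (σ i) (σ j) (fun h' => hij (σ.injective h')) ?_
    rw [Finset.mem_map_equiv, edPerm_symm_ed]
    simpa only [Equiv.symm_apply_apply] using hA

theorem finrank_ZV_perm {k : ℕ} (lam : Fin k → Fin 3 → ℂ)
    (A : Finset (Edge k)) (σ : Equiv.Perm (Fin k)) :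
    Module.finrank ℂ ↥(ZV (fun i => lam (σ i)) A) =
      Module.finrank ℂ ↥(ZV lam (A.map (edPerm σ).toEmbedding)) := by
  let e : (Fin k → Fin 3 → ℂ) ≃ₗ[ℂ] (Fin k → Fin 3 → ℂ) := LinearEquiv.funCongrLeft ℂ (Fin 3 → ℂ) σ
  have he : ZV lam (A.map (edPerm σ).toEmbedding) = (ZV (fun i => lam (σ i)) A).comap e.toLinearMap := by
    ext ζ
    rw [Submodule.mem_comap, ← ZV_perm]
    rfl
  rw [he]
  have := LinearEquiv.finrank_map_eq e ((ZV (fun i => lam (σ i)) A).comap e.toLinearMap)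
  rw [← this, Submodule.map_comap_eq_of_surjective e.surjective]

theorem map_map_symm {k : ℕ} (A : Finset (Edge k)) (σ : Equiv.Perm (Fin k)) :
    (A.map (edPerm σ).toEmbedding).map (edPerm σ.symm).toEmbedding = A := by
  ext e
  rw [Finset.mem_map_equiv, Finset.mem_map_equiv]
  have h : (edPerm σ).symm ((edPerm σ.symm).symm e) = e := by
    have : (edPerm σ.symm).symm = edPerm σ := rfl
    rw [this, Equiv.symm_apply_apply]
  rw [h]

/-- If `f lam A` takes the minimal value over all `lam` for every `A`, and is equivariant, then it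
is invariant. -/
theorem inv_of_min {k : ℕ} (f : (Fin k → Fin 3 → ℂ) → Finset (Edge k) → ℕ)
    (hf : ∀ lam σ A, f (fun i => lam (σ i)) A = f lam (A.map (edPerm σ).toEmbedding))
    (lam : Fin k → Fin 3 → ℂ) (hmin : ∀ A lam', f lam A ≤ f lam' A) (σ : Equiv.Perm (Fin k))
    (A : Finset (Edge k)) : f lam (A.map (edPerm σ).toEmbedding) = f lam A := by
  apply le_antisymm
  · calc f lam (A.map (edPerm σ).toEmbedding)
        ≤ f (fun i => lam (σ.symm i)) (A.map (edPerm σ).toEmbedding) := hmin _ _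
      _ = f lam A := by rw [hf lam σ.symm, map_map_symm]
  · rw [← hf]
    exact hmin _ _

/-! ### The packet -/

theorem min_open (k : ℕ) (f : (Fin k → Fin 3 → ℂ) → ℕ) (hf : ∀ r, LineOpen {lam | f lam ≤ r}) :
    LineOpen {lam | ∀ lam', f lam ≤ f lam'} ∧ {lam | ∀ lam', f lam ≤ f lam'}.Nonempty := by
  have hne : (Set.range f).Nonempty := Set.range_nonempty f
  have hmem := Nat.sInf_mem hne
  have heq : {lam | ∀ lam', f lam ≤ f lam'} = {lam | f lam ≤ sInf (Set.range f)} := by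
    ext lam
    constructor
    · intro h
      obtain ⟨lam', h'⟩ := hmem
      exact (h lam').trans h'.le
    · intro h lam'
      exact le_trans h (Nat.sInf_le ⟨lam', rfl⟩)
  rw [heq]
  refine ⟨hf _, ?_⟩
  obtain ⟨lam', h'⟩ := hmem
  exact ⟨lam', h'.le⟩

theorem MINGEN (h1 : PM_stmt) (h2 : LO_stmt) (h3 : DIM_stmt) (h4 : STAR1_stmt) : MINGEN_stmt := by
  intro k hk H hH hdim
  have : FiniteDimensional ℂ ↥(HS 3 k) := (h3 2 k).1
  have : FiniteDimensional ℂ ↥H := Submodule.finiteDimensional_of_le hH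
  have hKH : LineOpen {lam : Fin k → Fin 3 → ℂ | Module.finrank ℂ ↥(KH lam H) ≤ k - 1} := by
    have h := h2.ker (Fin k → Fin 3 → ℂ) (Fin k → Fin 3 → ℂ) (MvPolynomial (Fin 3) ℂ ⧸ H)
      (fun lam => H.mkQ ∘ₗ Theta lam) (fun v p q => h1.lin _ _ H.mkQ _ (pm_Theta h1 p q v)) (k - 1)
    simpa only [finrank_KH] using h
  have hHV : ∀ A r, LineOpen {lam : Fin k → Fin 3 → ℂ | Module.finrank ℂ ↥(HV lam H A) ≤ r} := by
    intro A r
    have h := h2.ker (Fin k → Fin 3 → ℂ) H (Fin k × Fin k → ℂ) (fun lam => TH H A lam)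
      (fun v p q => by
        refine h1.pi _ _ _ fun ij => ?_
        by_cases hex : ∃ hij : ij.1 ≠ ij.2, ed ij.1 ij.2 hij ∉ A
        · have h5 := pm_eval h1 (pm_cr h1 p q ij.1 ij.2) (v : MvPolynomial (Fin 3) ℂ)
          have h6 : (fun t : ℂ => TH H A (p + t • q) v ij) = fun t : ℂ =>
              eval (cr ((p + t • q) ij.1) ((p + t • q) ij.2)) (v : MvPolynomial (Fin 3) ℂ) := by
            funext t
            rw [TH, LinearMap.pi_apply, dif_pos hex]
            change (aeval (cr ((p + t • q) ij.1) ((p + t • q) ij.2)))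
              (v : MvPolynomial (Fin 3) ℂ) = _
            rw [aeval_eval]
          rw [h6]
          exact h5
        · have h6 : (fun t : ℂ => TH H A (p + t • q) v ij) = fun _ : ℂ => 0 := by
            funext t
            rw [TH, LinearMap.pi_apply, dif_neg hex]
            rfl
          rw [h6]
          exact h1.const _ _) r
    simpa only [finrank_ker_TH] using h
  have hZV : ∀ A r, LineOpen {lam : Fin k → Fin 3 → ℂ | Module.finrank ℂ ↥(ZV lam A) ≤ r} := by
    intro A r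
    have h := h2.ker (Fin k → Fin 3 → ℂ) (Fin k → Fin 3 → ℂ) (Fin k × Fin k → ℂ)
      (fun lam => TZ A lam)
      (fun v p q => by
        refine h1.pi _ _ _ fun ij => ?_
        by_cases hex : ∃ hij : ij.1 ≠ ij.2, ed ij.1 ij.2 hij ∉ A
        · have h5 := pm_dot h1 (f := fun _ => v ij.1 - v ij.2) (fun a => h1.const _ _)
            (pm_cr h1 p q ij.1 ij.2)
          have h6 : (fun t : ℂ => TZ A (p + t • q) v ij) = fun t : ℂ =>
              (v ij.1 - v ij.2) ⬝ᵥ cr ((p + t • q) ij.1) ((p + t • q) ij.2) := by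
            funext t
            simp only [TZ, LinearMap.coe_mk, AddHom.coe_mk]
            rw [dif_pos hex]
          rw [h6]
          exact h5
        · have h6 : (fun t : ℂ => TZ A (p + t • q) v ij) = fun _ : ℂ => 0 := by
            funext t
            simp only [TZ, LinearMap.coe_mk, AddHom.coe_mk]
            rw [dif_neg hex]
          rw [h6]
          exact h1.const _ _) r
    simpa only [finrank_ker_TZ] using h
  have hall := h2.all (Fin k → Fin 3 → ℂ) (Finset (Edge k))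
    (fun A => {lam | ∀ lam', Module.finrank ℂ ↥(HV lam H A) ≤ Module.finrank ℂ ↥(HV lam' H A)} ∩
      {lam | ∀ lam', Module.finrank ℂ ↥(ZV lam A) ≤ Module.finrank ℂ ↥(ZV lam' A)})
    (fun A => by
      have hA := min_open k (fun lam => Module.finrank ℂ ↥(HV lam H A)) (hHV A)
      have hB := min_open k (fun lam => Module.finrank ℂ ↥(ZV lam A)) (hZV A)
      exact ⟨h2.inter _ _ _ hA.1 hB.1, h2.inter_ne _ _ _ hA.1 hB.1 hA.2 hB.2⟩)
  have hG := h2.inter_ne _ _ _ (gen_open h1 k) hKH (gen_nonempty k) (h4 k hk H hH hdim)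
  obtain ⟨lam, ⟨hgen, hker⟩, hmin⟩ := h2.inter_ne _ _ _ (h2.inter _ _ _ (gen_open h1 k) hKH)
    hall.1 hG hall.2
  rw [Set.mem_iInter] at hmin
  refine ⟨lam, hgen, hker, fun σ A => ⟨?_, ?_⟩⟩
  · exact inv_of_min (fun lam A => Module.finrank ℂ ↥(HV lam H A))
      (fun lam σ A => finrank_HV_perm lam H σ A) lam (fun A => (hmin A).1) σ A
  · exact inv_of_min (fun lam A => Module.finrank ℂ ↥(ZV lam A))
      (fun lam σ A => finrank_ZV_perm lam A σ) lam (fun A => (hmin A).2) σ A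

end Pool.Agent.Helper64.DS
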